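import Mathlib
import Pool.Agent.W179.Erdos
import Pool.Agent.H266R3.LDef

set_option autoImplicit false

open Pool.Agent.H266R3.LF

namespace Pool.Agent.Results.MP_fe8a5b_an.UniformlyDiscreteASQ

/-- The real normed space `X` is almost square: for every finite family `x i` in the unit sphere
and every `ε > 0` there is `y` in the unit sphere with `‖x i ± y‖ ≤ 1 + ε` for all `i`. -/
def IsASQ (X : Type) [NormedAddCommGroup X] [NormedSpace ℝ X] : Prop :=
  ∀ (k : ℕ) (x : Fin k → X), (∀ i, ‖x i‖ = 1) → ∀ ε : ℝ, 0 < ε →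
    ∃ y : X, ‖y‖ = 1 ∧ ∀ i, ‖x i + y‖ ≤ 1 + ε ∧ ‖x i - y‖ ≤ 1 + ε

/-- The distances between distinct points of `M` are bounded away from zero. -/
def IsUniformlyDiscrete (M : Type) [MetricSpace M] : Prop :=
  ∃ r : ℝ, 0 < r ∧ ∀ x y : M, x ≠ y → r ≤ dist x y

section Pot

variable {V : Type} (w : V → V → ℝ)

/-- The functions whose increments are controlled by the weight `w`. -/
def pots : Set (V → ℝ) := {f | ∀ u v, u ≠ v → |f u - f v| ≤ w u v}

/-- The largest pseudometric below the weight. -/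
noncomputable def pd (u v : V) : ℝ := sSup ((fun f : V → ℝ => |f u - f v|) '' pots w)

lemma bdd (u v : V) : BddAbove ((fun f : V → ℝ => |f u - f v|) '' pots w) := by
  by_cases h : u = v
  · refine ⟨0, ?_⟩
    rintro _ ⟨f, _, rfl⟩
    simp [h]
  · refine ⟨w u v, ?_⟩
    rintro _ ⟨f, hf, rfl⟩
    exact hf u v h

lemma le_pd {f : V → ℝ} (hf : f ∈ pots w) (u v : V) : |f u - f v| ≤ pd w u v :=
  le_csSup (bdd w u v) ⟨f, hf, rfl⟩

variable {w}

lemma zero_mem (hw : ∀ u v, u ≠ v → 1 ≤ w u v) : (0 : V → ℝ) ∈ pots w := by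
  intro u v h
  simp only [Pi.zero_apply, sub_self, abs_zero]
  exact zero_le_one.trans (hw u v h)

lemma pd_le_of (hw : ∀ u v, u ≠ v → 1 ≤ w u v) {u v : V} {c : ℝ}
    (h : ∀ f ∈ pots w, |f u - f v| ≤ c) : pd w u v ≤ c := by
  refine csSup_le ⟨_, 0, zero_mem hw, rfl⟩ ?_
  rintro _ ⟨f, hf, rfl⟩
  exact h f hf

/-- The metric defined by a weight. -/
@[instance_reducible] noncomputable def potMetric (hw : ∀ u v, u ≠ v → 1 ≤ w u v) : MetricSpace V where
  dist := pd w
  dist_self u := le_antisymm (pd_le_of hw (fun f _ => by simp))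
    ((abs_nonneg _).trans (le_pd w (zero_mem hw) u u))
  dist_comm u v := by
    show pd w u v = pd w v u
    unfold pd
    congr 1
    ext r
    constructor
    · rintro ⟨f, hf, rfl⟩; exact ⟨f, hf, abs_sub_comm _ _⟩
    · rintro ⟨f, hf, rfl⟩; exact ⟨f, hf, abs_sub_comm _ _⟩
  dist_triangle u v x := by
    refine pd_le_of hw (fun f hf => ?_)
    exact (abs_sub_le _ (f v) _).trans (add_le_add (le_pd w hf u v) (le_pd w hf v x))
  eq_of_dist_eq_zero := by
    classical
    intro u v h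
    by_contra hne
    have h1 : (fun x : V => if x = u then (1 : ℝ) else 0) ∈ pots w := by
      intro x y hxy
      refine le_trans ?_ (hw x y hxy)
      show |(if x = u then (1 : ℝ) else 0) - (if y = u then (1 : ℝ) else 0)| ≤ 1
      split_ifs <;> simp
    have h2 := le_pd w h1 u v
    have h3 : pd w u v = 0 := h
    rw [h3] at h2
    have h4 : v ≠ u := fun e => hne e.symm
    simp [h4] at h2
    linarith

lemma one_le_pd (hw : ∀ u v, u ≠ v → 1 ≤ w u v) {u v : V} (hne : u ≠ v) : 1 ≤ pd w u v := by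
  classical
  have h1 : (fun x : V => if x = u then (1 : ℝ) else 0) ∈ pots w := by
    intro x y hxy
    refine le_trans ?_ (hw x y hxy)
    show |(if x = u then (1 : ℝ) else 0) - (if y = u then (1 : ℝ) else 0)| ≤ 1
    split_ifs <;> simp
  have h2 := le_pd w h1 u v
  have h4 : v ≠ u := fun e => hne e.symm
  simpa [h4] using h2

lemma lip_of_weight {h : V → ℝ} {C : ℝ} (hC : 0 ≤ C) (_ : ∀ u v, u ≠ v → 1 ≤ w u v)
    (hh : ∀ u v, u ≠ v → |h u - h v| ≤ C * w u v) (u v : V) : |h u - h v| ≤ C * pd w u v := by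
  rcases hC.eq_or_lt with rfl | hC
  · rcases eq_or_ne u v with rfl | huv
    · simp
    · have := hh u v huv
      rwa [zero_mul] at this ⊢
  · have h1 : (fun x => C⁻¹ * h x) ∈ pots w := by
      intro x y hxy
      show |C⁻¹ * h x - C⁻¹ * h y| ≤ w x y
      rw [← mul_sub, abs_mul, abs_of_pos (inv_pos.2 hC), inv_mul_le_iff₀ hC]
      exact hh x y hxy
    have h2 := le_pd w h1 u v
    have h3 : |C⁻¹ * h u - C⁻¹ * h v| = C⁻¹ * |h u - h v| := by
      rw [← mul_sub, abs_mul, abs_of_pos (inv_pos.2 hC)]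
    rw [h3, inv_mul_le_iff₀ hC] at h2
    exact h2

end Pot

section Graph

/-- The cut function of an edge in a graph of large girth. -/
lemma exists_cut {W : Type} (H : SimpleGraph W) (n : ℕ) (hn : 1 ≤ n)
    (hg : ∀ l f, Pool.Agent.W179.Erdos.FCyc H l f → n < l) {a b : W} (hab : H.Adj a b) :
    ∃ φ : W → ℝ, (∀ v, 0 ≤ φ v) ∧ (∀ v, φ v ≤ 1) ∧ φ a = 0 ∧ φ b = 1 ∧
      ∀ u v, H.Adj u v → s(u, v) ≠ s(a, b) → |φ u - φ v| ≤ 1 / n := by
  classical
  have hn0 : (0 : ℝ) < n := by exact_mod_cast hn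
  set G : SimpleGraph W := H.deleteEdges {s(a, b)} with hG
  set φ : W → ℝ := fun v => if G.Reachable a v then min ((1 / n : ℝ) * G.dist a v) 1 else 1 with hφ
  have hadj : ∀ u v, H.Adj u v → s(u, v) ≠ s(a, b) → G.Adj u v := by
    intro u v h h'
    rw [hG, SimpleGraph.deleteEdges_adj]
    exact ⟨h, h'⟩
  -- one-sided estimate
  have key : ∀ u v, G.Adj u v → φ v ≤ φ u + 1 / n := by
    intro u v h
    by_cases hu : G.Reachable a u
    · have hv : G.Reachable a v := hu.trans h.reachable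
      simp only [hφ, hu, hv, if_true]
      have hd : G.dist a v ≤ G.dist a u + 1 := by
        obtain ⟨p, hp⟩ := hu.exists_walk_length_eq_dist
        have := SimpleGraph.dist_le (p.concat h)
        rwa [SimpleGraph.Walk.length_concat, hp] at this
      have hd' : (G.dist a v : ℝ) ≤ G.dist a u + 1 := by exact_mod_cast hd
      rcases le_total ((1 / n : ℝ) * G.dist a u) 1 with h1 | h1
      · rw [min_eq_left h1]
        refine (min_le_left _ _).trans ?_
        have : (1 / n : ℝ) * G.dist a v ≤ (1 / n : ℝ) * (G.dist a u + 1) :=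
          mul_le_mul_of_nonneg_left hd' (by positivity)
        linarith
      · rw [min_eq_right h1]
        have : (0 : ℝ) < 1 / n := by positivity
        exact (min_le_right _ _).trans (by linarith)
    · have hv : ¬ G.Reachable a v := fun hv => hu (hv.trans h.symm.reachable)
      simp only [hφ, hu, hv, if_false]
      have : (0 : ℝ) < 1 / n := by positivity
      linarith
  refine ⟨φ, fun v => ?_, fun v => ?_, ?_, ?_, ?_⟩
  · simp only [hφ]
    split_ifs
    · positivity
    · exact zero_le_one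
  · simp only [hφ]
    split_ifs
    · exact min_le_right _ _
    · exact le_rfl
  · simp [hφ]
  · simp only [hφ]
    split_ifs with h
    · obtain ⟨p, hp, hpl⟩ := h.exists_path_of_dist
      set m := G.dist a b with hm
      have hm0 : m ≠ 0 := by
        intro h0
        rw [hm, h.dist_eq_zero_iff] at h0
        exact hab.ne h0
      have hm1 : m ≠ 1 := by
        intro h1
        rw [hm, SimpleGraph.dist_eq_one_iff_adj, hG, SimpleGraph.deleteEdges_adj] at h1
        exact h1.2 rfl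
      have hle : G ≤ H := SimpleGraph.deleteEdges_le _
      have hc : Pool.Agent.W179.Erdos.FCyc H (m + 1) (fun i => p.getVert i) := by
        refine ⟨by omega, ?_, ?_, ?_⟩
        · intro i hi j hj hij
          refine hp.getVert_injOn ?_ ?_ hij
          · show i ≤ p.length
            omega
          · show j ≤ p.length
            omega
        · intro i hi
          exact hle (p.adj_getVert_succ (by omega))
        · have e1 : p.getVert (m + 1 - 1) = b := by
            rw [Nat.add_sub_cancel, ← hpl, p.getVert_length]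
          have e2 : p.getVert 0 = a := p.getVert_zero
          show H.Adj (p.getVert (m + 1 - 1)) (p.getVert 0)
          rw [e1, e2]
          exact hab.symm
      have h1 := hg _ _ hc
      have h2 : (n : ℝ) ≤ m := by
        have : n ≤ m := by omega
        exact_mod_cast this
      rw [min_eq_right]
      rw [one_div, ← div_eq_inv_mul, le_div_iff₀ hn0, one_mul]
      exact h2
    · rfl
  · intro u v huv hne
    have h1 := key u v (hadj u v huv hne)
    have h2 := key v u (hadj u v huv hne).symm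
    rw [abs_le]
    constructor <;> linarith

/-- In a graph of large chromatic number functions with bounded increments have a common small
increment. -/
lemma exists_edge {W : Type} (H : SimpleGraph W) (k N : ℕ) (hN : 1 ≤ N)
    (hH : ¬ H.Colorable ((N + 1) ^ k)) (f : Fin k → W → ℝ)
    (hf : ∀ i u v, H.Adj u v → |f i u - f i v| ≤ 1) :
    ∃ a b, H.Adj a b ∧ ∀ i, |f i a - f i b| ≤ 1 / N := by
  classical
  by_contra hcon
  push Not at hcon
  apply hH
  have hN0 : (0 : ℝ) < N := by exact_mod_cast hN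
  set c : W → (Fin k → ZMod (N + 1)) := fun v i => ((⌊(N : ℝ) * f i v⌋ : ℤ) : ZMod (N + 1)) with hc
  have hval : ∀ {u v : W}, H.Adj u v → c u ≠ c v := by
    intro u v huv heq
    obtain ⟨i, hi⟩ := hcon u v huv
    have h1 : ((⌊(N : ℝ) * f i u⌋ : ℤ) : ZMod (N + 1)) = ((⌊(N : ℝ) * f i v⌋ : ℤ) : ZMod (N + 1)) :=
      congrFun heq i
    rw [ZMod.intCast_eq_intCast_iff] at h1
    have h2 : ((N + 1 : ℕ) : ℤ) ∣ ⌊(N : ℝ) * f i v⌋ - ⌊(N : ℝ) * f i u⌋ := h1.dvd
    have h3 := hf i u v huv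
    have h4 : |⌊(N : ℝ) * f i v⌋ - ⌊(N : ℝ) * f i u⌋| < ((N + 1 : ℕ) : ℤ) := by
      have a1 := Int.floor_le ((N : ℝ) * f i u)
      have a2 := Int.lt_floor_add_one ((N : ℝ) * f i u)
      have a3 := Int.floor_le ((N : ℝ) * f i v)
      have a4 := Int.lt_floor_add_one ((N : ℝ) * f i v)
      rw [abs_le] at h3
      have b1 : (N : ℝ) * f i u - (N : ℝ) * f i v ≤ N := by nlinarith
      have b2 : (N : ℝ) * f i v - (N : ℝ) * f i u ≤ N := by nlinarith
      rw [abs_lt]
      constructor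
      · have : (-((N : ℝ) + 1)) < (⌊(N : ℝ) * f i v⌋ : ℝ) - ⌊(N : ℝ) * f i u⌋ := by linarith
        have h5 : ((-((N + 1 : ℕ) : ℤ) : ℤ) : ℝ)
            < ((⌊(N : ℝ) * f i v⌋ - ⌊(N : ℝ) * f i u⌋ : ℤ) : ℝ) := by
          push_cast; linarith
        exact_mod_cast h5
      · have : (⌊(N : ℝ) * f i v⌋ : ℝ) - ⌊(N : ℝ) * f i u⌋ < (N : ℝ) + 1 := by linarith
        have h5 : ((⌊(N : ℝ) * f i v⌋ - ⌊(N : ℝ) * f i u⌋ : ℤ) : ℝ)
            < (((N + 1 : ℕ) : ℤ) : ℝ) := by
          push_cast; linarith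
        exact_mod_cast h5
    have h5 := Int.eq_zero_of_abs_lt_dvd h2 h4
    have h6 : ⌊(N : ℝ) * f i u⌋ = ⌊(N : ℝ) * f i v⌋ := by omega
    have h7 := Int.abs_sub_lt_one_of_floor_eq_floor h6
    rw [← mul_sub, abs_mul, abs_of_pos hN0] at h7
    rw [div_lt_iff₀ hN0] at hi
    linarith
  have hcol : H.Colorable (Fintype.card (Fin k → ZMod (N + 1))) :=
    (SimpleGraph.Coloring.mk c hval).colorable
  rwa [Fintype.card_fun, ZMod.card, Fintype.card_fin] at hcol

end Graph

section Sigma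

variable {V : ℕ → Type} (H : ∀ n, SimpleGraph (V n))

/-- Adjacency in the disjoint union of the graphs. -/
inductive SAdj : (Σ n, V n) → (Σ n, V n) → Prop
  | mk (n : ℕ) (a b : V n) (h : (H n).Adj a b) : SAdj ⟨n, a⟩ ⟨n, b⟩

open Classical in
/-- The weight. -/
noncomputable def wt (p q : Σ n, V n) : ℝ := if SAdj H p q then 1 else (p.1 : ℝ) + q.1 + 1

variable {H}

lemma one_le_wt (p q : Σ n, V n) (_ : p ≠ q) : 1 ≤ wt H p q := by
  unfold wt
  split_ifs
  · exact le_rfl
  · have h1 : (0 : ℝ) ≤ p.1 := Nat.cast_nonneg _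
    have h2 : (0 : ℝ) ≤ q.1 := Nat.cast_nonneg _
    linarith

lemma wt_adj {n : ℕ} {a b : V n} (h : (H n).Adj a b) : wt H ⟨n, a⟩ ⟨n, b⟩ = 1 := by
  unfold wt
  rw [if_pos (SAdj.mk n a b h)]

/-- Extension of a function on the `n`-th graph by zero. -/
noncomputable def ext0 (n : ℕ) (φ : V n → ℝ) (p : Σ n, V n) : ℝ :=
  open Classical in if h : p.1 = n then φ (h ▸ p.2) else 0

lemma ext0_same (n : ℕ) (φ : V n → ℝ) (v : V n) : ext0 n φ ⟨n, v⟩ = φ v := by
  simp [ext0]

lemma ext0_ne {n : ℕ} (φ : V n → ℝ) {p : Σ n, V n} (h : p.1 ≠ n) : ext0 n φ p = 0 := by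
  simp [ext0, h]

lemma ext0_mem {n : ℕ} {φ : V n → ℝ} (h0 : ∀ v, 0 ≤ φ v) (h1 : ∀ v, φ v ≤ 1) (p : Σ n, V n) :
    0 ≤ ext0 n φ p ∧ ext0 n φ p ≤ 1 := by
  obtain ⟨m, v⟩ := p
  rcases eq_or_ne m n with rfl | h
  · rw [ext0_same]; exact ⟨h0 v, h1 v⟩
  · rw [ext0_ne φ (p := ⟨m, v⟩) h]; exact ⟨le_rfl, zero_le_one⟩

/-- The main estimate on the extended cut function. -/
lemma cut_estimate {n : ℕ} (hn : 1 ≤ n) {φ : V n → ℝ} (h0 : ∀ v, 0 ≤ φ v) (h1 : ∀ v, φ v ≤ 1)
    {a b : V n} (hφ : ∀ u v, (H n).Adj u v → s(u, v) ≠ s(a, b) → |φ u - φ v| ≤ 1 / n)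
    (p q : Σ n, V n) (hpq : p ≠ q)
    (hne : ¬ ((p = ⟨n, a⟩ ∧ q = ⟨n, b⟩) ∨ (p = ⟨n, b⟩ ∧ q = ⟨n, a⟩))) :
    |ext0 n φ p - ext0 n φ q| ≤ 1 / n * wt H p q := by
  have hn0 : (0 : ℝ) < n := by exact_mod_cast hn
  have hpos : (0 : ℝ) ≤ 1 / n := by positivity
  by_cases hadj : SAdj H p q
  · obtain ⟨m, u, v, huv⟩ := hadj
    rw [wt_adj huv, mul_one]
    rcases eq_or_ne m n with rfl | hmn
    · rw [ext0_same, ext0_same]
      apply hφ u v huv
      intro heq
      rw [Sym2.eq_iff] at heq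
      rcases heq with ⟨rfl, rfl⟩ | ⟨rfl, rfl⟩
      · exact hne (Or.inl ⟨rfl, rfl⟩)
      · exact hne (Or.inr ⟨rfl, rfl⟩)
    · rw [ext0_ne φ (p := ⟨m, u⟩) hmn, ext0_ne φ (p := ⟨m, v⟩) hmn, sub_self, abs_zero]
      exact hpos
  · have hw : wt H p q = (p.1 : ℝ) + q.1 + 1 := by
      unfold wt
      rw [if_neg hadj]
    have hp0 : (0 : ℝ) ≤ p.1 := Nat.cast_nonneg _
    have hq0 : (0 : ℝ) ≤ q.1 := Nat.cast_nonneg _
    obtain ⟨a1, a2⟩ := ext0_mem h0 h1 p
    obtain ⟨b1, b2⟩ := ext0_mem h0 h1 q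
    have hle : |ext0 n φ p - ext0 n φ q| ≤ 1 := by
      rw [abs_le]; constructor <;> linarith
    rw [hw]
    by_cases hp : p.1 = n
    · refine hle.trans ?_
      rw [one_div, ← div_eq_inv_mul, le_div_iff₀ hn0, hp]
      linarith
    · by_cases hq : q.1 = n
      · refine hle.trans ?_
        rw [one_div, ← div_eq_inv_mul, le_div_iff₀ hn0, hq]
        linarith
      · rw [ext0_ne φ hp, ext0_ne φ hq, sub_self, abs_zero]
        positivity

end Sigma

/-- **Theorem.** There is an unbounded uniformly discrete metric space `M` such that the space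
`Lip(M)` is almost square (for every choice of the base point). -/
theorem result : ∃ (M : Type) (_ : MetricSpace M), IsUniformlyDiscrete M ∧
    ¬ Bornology.IsBounded (Set.univ : Set M) ∧ ∀ o : M, IsASQ (Lip0 M o) := by
  classical
  choose V _ H hcol hcyc using fun n : ℕ => Pool.Agent.W179.Erdos.erdos n n
  let _ : MetricSpace (Σ n, V n) := potMetric (w := wt H) one_le_wt
  have hdist : ∀ p q : Σ n, V n, dist p q = pd (wt H) p q := fun _ _ => rfl
  have hne : ∀ n, Nonempty (V n) := by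
    intro n
    by_contra h
    rw [not_nonempty_iff] at h
    exact hcol n ⟨SimpleGraph.Coloring.mk (fun v => isEmptyElim v) (fun {v} => isEmptyElim v)⟩
  refine ⟨Σ n, V n, inferInstance, ⟨1, one_pos, fun x y h => ?_⟩, ?_, ?_⟩
  · rw [hdist]; exact one_le_pd one_le_wt h
  · intro hb
    obtain ⟨C, hC⟩ := (Metric.isBounded_iff.1 hb)
    -- the level function
    have hlev : (fun p : Σ n, V n => (p.1 : ℝ)) ∈ pots (wt H) := by
      intro p q _
      by_cases hadj : SAdj H p q
      · obtain ⟨m, u, v, huv⟩ := hadj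
        rw [wt_adj huv]
        simp
      · have hw : wt H p q = (p.1 : ℝ) + q.1 + 1 := by
          unfold wt
          rw [if_neg hadj]
        rw [hw]
        have hp0 : (0 : ℝ) ≤ p.1 := Nat.cast_nonneg _
        have hq0 : (0 : ℝ) ≤ q.1 := Nat.cast_nonneg _
        show |(p.1 : ℝ) - q.1| ≤ _
        rw [abs_le]; constructor <;> linarith
    obtain ⟨n, hn⟩ := exists_nat_gt C
    have h1 := le_pd (wt H) hlev ⟨n, (hne n).some⟩ ⟨0, (hne 0).some⟩
    have h2 := hC (Set.mem_univ (⟨n, (hne n).some⟩ : Σ n, V n))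
      (Set.mem_univ (⟨0, (hne 0).some⟩ : Σ n, V n))
    rw [hdist] at h2
    simp only [Nat.cast_zero, sub_zero, Nat.abs_cast] at h1
    linarith
  · intro o k f hf ε hε
    -- the parameters
    obtain ⟨N, hN⟩ := exists_nat_gt (1 / ε)
    have hN0 : (0 : ℝ) < N := lt_trans (by positivity) hN
    have hN1 : 1 ≤ N := by exact_mod_cast hN0
    have hNε : (1 : ℝ) / N ≤ ε := by
      rw [div_lt_iff₀ hε] at hN
      rw [div_le_iff₀ hN0, mul_comm]
      exact hN.le
    set n : ℕ := max N ((N + 1) ^ k) with hn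
    have hn1 : 1 ≤ n := hN1.trans (le_max_left _ _)
    have hnN : (1 : ℝ) / n ≤ 1 / N :=
      one_div_le_one_div_of_le hN0 (by exact_mod_cast le_max_left _ _)
    have hcol' : ¬ (H n).Colorable ((N + 1) ^ k) := fun h => hcol n (h.mono (le_max_right _ _))
    have hfw : ∀ i p q, p ≠ q → |(f i).fn p - (f i).fn q| ≤ wt H p q := by
      intro i p q hpq
      have h1 := (f i).abs_sub_le p q
      rw [hf i, one_mul, hdist] at h1
      refine h1.trans (pd_le_of one_le_wt fun g hg => hg p q hpq)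
    obtain ⟨a, b, hab, hfab⟩ := exists_edge (H n) k N hN1 hcol' (fun i v => (f i).fn ⟨n, v⟩) (by
      intro i u v huv
      have := hfw i ⟨n, u⟩ ⟨n, v⟩ (by
        intro h
        rw [Sigma.mk.injEq] at h
        exact huv.ne (eq_of_heq h.2))
      rwa [wt_adj huv] at this)
    obtain ⟨φ, φ0, φ1, φa, φb, hφ⟩ := exists_cut (H n) n hn1 (hcyc n) hab
    have hnpos : (0 : ℝ) < n := by exact_mod_cast hn1
    have hn11 : (1 : ℝ) / n ≤ 1 := by
      rw [div_le_one hnpos]; exact_mod_cast hn1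
    -- the increments of the cut function
    have hinc : ∀ p q : Σ n, V n, p ≠ q → |ext0 n φ p - ext0 n φ q| ≤ 1 / n * wt H p q ∨
        (wt H p q = 1 ∧ |ext0 n φ p - ext0 n φ q| ≤ 1 ∧
          ∀ i, |(f i).fn p - (f i).fn q| ≤ 1 / N) := by
      intro p q hpq
      by_cases hcase : (p = ⟨n, a⟩ ∧ q = ⟨n, b⟩) ∨ (p = ⟨n, b⟩ ∧ q = ⟨n, a⟩)
      · right
        rcases hcase with ⟨rfl, rfl⟩ | ⟨rfl, rfl⟩
        · refine ⟨wt_adj hab, ?_, hfab⟩
          rw [ext0_same, ext0_same, φa, φb]; norm_num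
        · refine ⟨wt_adj hab.symm, ?_, fun i => ?_⟩
          · rw [ext0_same, ext0_same, φa, φb]; norm_num
          · rw [abs_sub_comm]; exact hfab i
      · left
        exact cut_estimate hn1 φ0 φ1 hφ p q hpq hcase
    have hw0 : ∀ p q : Σ n, V n, p ≠ q → 0 < wt H p q := fun p q h =>
      zero_lt_one.trans_le (one_le_wt p q h)
    have hinc1 : ∀ p q : Σ n, V n, p ≠ q → |ext0 n φ p - ext0 n φ q| ≤ 1 * wt H p q := by
      intro p q hpq
      rcases hinc p q hpq with h | ⟨h1, h2, -⟩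
      · exact h.trans (mul_le_mul_of_nonneg_right hn11 (hw0 p q hpq).le)
      · rw [h1, mul_one]; exact h2
    have hlip := lip_of_weight zero_le_one one_le_wt hinc1
    set g : Lip0 (Σ n, V n) o := Lip0.mk (fun p => ext0 n φ p - ext0 n φ o) (sub_self _) 1
      zero_le_one (fun p q => by
        rw [sub_sub_sub_cancel_right, hdist]
        exact hlip p q) with hgdef
    have hg : ∀ p q, g.fn p - g.fn q = ext0 n φ p - ext0 n φ q := by
      intro p q
      rw [hgdef, Lip0.fn_mk, Lip0.fn_mk, sub_sub_sub_cancel_right]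
    -- the sum estimate
    have hsum : ∀ i p q, p ≠ q →
        |(f i).fn p - (f i).fn q| + |g.fn p - g.fn q| ≤ (1 + ε) * wt H p q := by
      intro i p q hpq
      rw [hg]
      have hw := hw0 p q hpq
      rcases hinc p q hpq with h | ⟨h1, h2, h3⟩
      · have h4 := hfw i p q hpq
        have h5 : 1 / (n : ℝ) * wt H p q ≤ ε * wt H p q :=
          mul_le_mul_of_nonneg_right (hnN.trans hNε) hw.le
        linarith
      · have h4 := h3 i
        rw [h1]; linarith
    refine ⟨g, le_antisymm ?_ ?_, fun i => ⟨?_, ?_⟩⟩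
    · refine Lip0.norm_le' g zero_le_one fun p q => ?_
      rw [hg, hdist]
      exact hlip p q
    · have h1 := g.abs_sub_le ⟨n, a⟩ ⟨n, b⟩
      rw [hg, ext0_same, ext0_same, φa, φb, hdist] at h1
      have h2 : pd (wt H) ⟨n, a⟩ ⟨n, b⟩ ≤ 1 := by
        refine pd_le_of one_le_wt fun f hf => ?_
        have := hf ⟨n, a⟩ ⟨n, b⟩ (by
          intro h
          rw [Sigma.mk.injEq] at h
          exact hab.ne (eq_of_heq h.2))
        rwa [wt_adj hab] at this
      have h3 : ‖g‖ * pd (wt H) ⟨n, a⟩ ⟨n, b⟩ ≤ ‖g‖ * 1 :=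
        mul_le_mul_of_nonneg_left h2 (norm_nonneg g)
      have h4 : |(0 : ℝ) - 1| = 1 := by norm_num
      rw [h4] at h1
      linarith
    · refine Lip0.norm_le' _ (by positivity) fun p q => ?_
      rw [hdist]
      refine lip_of_weight (h := (f i + g).fn) (by positivity) one_le_wt (fun p q hpq => ?_) p q
      have h1 : (f i + g).fn p - (f i + g).fn q
          = ((f i).fn p - (f i).fn q) + (g.fn p - g.fn q) := by
        rw [Lip0.fn_add, Lip0.fn_add]; ring
      rw [h1]
      exact (abs_add_le _ _).trans (hsum i p q hpq)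
    · refine Lip0.norm_le' _ (by positivity) fun p q => ?_
      rw [hdist]
      refine lip_of_weight (h := (f i - g).fn) (by positivity) one_le_wt (fun p q hpq => ?_) p q
      have h1 : (f i - g).fn p - (f i - g).fn q
          = ((f i).fn p - (f i).fn q) - (g.fn p - g.fn q) := by
        rw [Lip0.fn_sub, Lip0.fn_sub]; ring
      rw [h1]
      exact (abs_sub _ _).trans (hsum i p q hpq)

end Pool.Agent.Results.MP_fe8a5b_an.UniformlyDiscreteASQ
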